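import Pool.Agent.Run7.h19.HP.Iface

/-! Project HP of helper19 (MP_5499ac_co), piece B, by helper774. -/

set_option autoImplicit false

open Module Submodule Finset Pool.Agent.H99.SubDeg Run7.h19.HP

namespace Run7.h774.HP

section
variable {K : Type} [Field K] [Finite K] {V : Type} [AddCommGroup V] [Module K V] [Finite V]

theorem line_dim (P Q T : Submodule K V) (hP : finrank K P = 1) (hPT : ¬ P ≤ T)
    (hQ : finrank K Q = 1) (hQT : Q ≤ T) : finrank K (P ⊔ Q : Submodule K V) = 2 := by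
  rw [finrank_sup_point P Q hQ, hP]
  intro hh
  exact hPT (point_eq hQ hP hh ▸ hQT)

theorem line_inj (P Q Q' T : Submodule K V) (hP : finrank K P = 1) (hPT : ¬ P ≤ T)
    (hQ : finrank K Q = 1) (hQT : Q ≤ T) (hQ' : finrank K Q' = 1) (hQ'T : Q' ≤ T)
    (he : P ⊔ Q = P ⊔ Q') : Q = Q' := by
  by_contra hne
  have h1 : ¬ Q' ≤ Q := fun hh => hne (point_eq hQ' hQ hh).symm
  have h2 : finrank K (Q ⊔ Q' : Submodule K V) = 2 := by rw [finrank_sup_point Q Q' hQ' h1, hQ]
  have h3 := line_dim P Q T hP hPT hQ hQT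
  have h6 : Q' ≤ P ⊔ Q := by rw [he]; exact le_sup_right
  have h4 : Q ⊔ Q' = P ⊔ Q := eq_of_le_of_finrank_eq (sup_le le_sup_right h6) (by omega)
  have h5 : P ≤ Q ⊔ Q' := by rw [h4]; exact le_sup_left
  exact hPT (h5.trans (sup_le hQT hQ'T))

open scoped Classical in
theorem key (hNP : S_NPOP) (hP1 : S_POP1) {k τ : ℕ} {F : Finset (Submodule K V)}
    {T : Submodule K V} (h : Cfg k τ F T) (hτ : τ + 8 ≤ k) (P : Submodule K V)
    (hP : finrank K P = 1) (hPT : ¬ P ≤ T) (hd : bb k 2 < deg F P) :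
    (∃ Q ∈ pts T, Transv F (P ⊔ Q)) ∨ ∃ Q ∈ pts T, ∃ Q' ∈ pts T, Q ≠ Q' ∧
      Pop k τ F (P ⊔ Q) ∧ Pop k τ F (P ⊔ Q') := by
  by_contra hcon
  rw [not_or] at hcon
  obtain ⟨hnt, hno⟩ := hcon
  have hsum := branch_sum F P T h.hTt
  have hSc : ((pts T).filter (fun Q => Pop k τ F (P ⊔ Q))).card ≤ 1 := by
    rw [Finset.card_le_one]
    intro Q hQ Q' hQ'
    rw [Finset.mem_filter] at hQ hQ'
    by_contra hne
    exact hno ⟨Q, hQ.1, Q', hQ'.1, hne, hQ.2, hQ'.2⟩
  have hb : ∀ Q ∈ pts T, 2 ^ (τ + 1) * deg F (P ⊔ Q) ≤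
      (if Pop k τ F (P ⊔ Q) then 2 ^ τ * bb k 2 else 0) + bb k 2 := by
    intro Q hQ
    have hQ' : finrank K Q = 1 ∧ Q ≤ T := by
      simpa only [pts, Finset.mem_filter, Finset.mem_univ, true_and] using hQ
    have hL := line_dim P Q T hP hPT hQ'.1 hQ'.2
    by_cases hp : Pop k τ F (P ⊔ Q)
    · rw [if_pos hp]
      have h1 := hP1 K V k τ F T h (P ⊔ Q) hL (fun ht => hnt ⟨Q, hQ, ht⟩)
      have h2 : 2 ^ (τ + 1) * deg F (P ⊔ Q) = 2 ^ τ * (2 * deg F (P ⊔ Q)) := by
        rw [pow_succ]; ring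
      rw [h2]
      exact (Nat.mul_le_mul_left (2 ^ τ) h1).trans (Nat.le_add_right _ _)
    · rw [if_neg hp, zero_add]
      exact hNP K V k τ F T h hτ (P ⊔ Q) hL hp
  have hcT : (pts T).card ≤ 2 ^ τ := by
    have h1 := pts_card T
    rw [h.hq, h.hT] at h1
    have h2 : (pts T).card = 2 ^ τ - 1 := by simpa using h1
    rw [h2]
    exact Nat.sub_le _ _
  have htot : 2 ^ (τ + 1) * deg F P ≤ 2 ^ (τ + 1) * bb k 2 := by
    calc 2 ^ (τ + 1) * deg F P ≤ 2 ^ (τ + 1) * ∑ Q ∈ pts T, deg F (P ⊔ Q) :=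
          Nat.mul_le_mul_left _ hsum
      _ = ∑ Q ∈ pts T, 2 ^ (τ + 1) * deg F (P ⊔ Q) := Finset.mul_sum _ _ _
      _ ≤ ∑ Q ∈ pts T, ((if Pop k τ F (P ⊔ Q) then 2 ^ τ * bb k 2 else 0) + bb k 2) :=
          Finset.sum_le_sum hb
      _ = ((pts T).filter (fun Q => Pop k τ F (P ⊔ Q))).card * (2 ^ τ * bb k 2) +
          (pts T).card * bb k 2 := by
          rw [Finset.sum_add_distrib, ← Finset.sum_filter, Finset.sum_const, Finset.sum_const,
            smul_eq_mul, smul_eq_mul]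
      _ ≤ 1 * (2 ^ τ * bb k 2) + 2 ^ τ * bb k 2 :=
          Nat.add_le_add (Nat.mul_le_mul_right _ hSc) (Nat.mul_le_mul_right _ hcT)
      _ = 2 ^ (τ + 1) * bb k 2 := by rw [pow_succ]; ring
  have := Nat.le_of_mul_le_mul_left htot (by positivity)
  omega

end

open scoped Classical in
theorem t_B : S_MEET → S_NPOP → S_POP1 → S_B := by
  intro hM hNP hP1 K _ _ V _ _ _ k τ F T h hτ
  have hhigh : ∀ P ∈ high k F, finrank K P = 1 ∧ bb k 2 < deg F P := by
    intro P hP
    simp only [high, Finset.mem_filter, Finset.mem_univ, true_and, h.hq, h.hn] at hP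
    exact hP
  have hptm : ∀ (Q S : Submodule K V), Q ∈ pts S → finrank K Q = 1 ∧ Q ≤ S := by
    intro Q S hQ
    simpa only [pts, Finset.mem_filter, Finset.mem_univ, true_and] using hQ
  have hpop2 : ∀ L : Submodule K V, Pop k τ F L → ∀ L' : Submodule K V, Pop k τ F L' →
      L ⊓ L' ≠ ⊥ := fun L hL L' hL' => hM K V k τ F T h hτ L L' hL hL'
  have hkey := key hNP hP1 h hτ
  have hFk := h.hF.1.1
  have hTd := h.hT
  have hτ2' := h.hτ2
  by_cases hstar : ∃ X : Submodule K V, finrank K X = 1 ∧ ∀ L : Submodule K V, Pop k τ F L → X ≤ L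
  · obtain ⟨X, hX, hXL⟩ := hstar
    have htr : ∀ P ∈ high k F, ¬ P ≤ T → P ≠ X →
        ∃ L : Submodule K V, finrank K L = 2 ∧ Transv F L ∧ P ≤ L := by
      intro P hP hPT hPX
      obtain ⟨hP1', hPd⟩ := hhigh P hP
      rcases hkey P hP1' hPT hPd with ⟨Q, hQ, hQt⟩ | ⟨Q, hQ, Q', hQ', hne, hp, hp'⟩
      · exact ⟨P ⊔ Q, line_dim P Q T hP1' hPT (hptm Q T hQ).1 (hptm Q T hQ).2, hQt, le_sup_left⟩
      · exfalso
        have hXP : ¬ X ≤ P := fun hh => hPX (point_eq hX hP1' hh).symm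
        have h1 : finrank K (P ⊔ X : Submodule K V) = 2 := by
          rw [finrank_sup_point P X hX hXP, hP1']
        have e : ∀ R : Submodule K V, Pop k τ F (P ⊔ R) → P ⊔ R = P ⊔ X := by
          intro R hpR
          have h3 : P ⊔ X ≤ P ⊔ R := sup_le le_sup_left (hXL _ hpR)
          exact (eq_of_le_of_finrank_eq h3 (by rw [h1, hpR.1])).symm
        have h2 := (e Q hp).trans (e Q' hp').symm
        exact hne (line_inj P Q Q' T hP1' hPT (hptm Q T hQ).1 (hptm Q T hQ).2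
          (hptm Q' T hQ').1 (hptm Q' T hQ').2 h2)
    rcases Nat.lt_or_ge τ 3 with hτ3 | hτ3
    · have hTd2 : finrank K T = 2 := by omega
      have hXt := h.hmin X (by omega)
      unfold Transv at hXt
      push Not at hXt
      obtain ⟨G, hG, hGX⟩ := hXt
      have hXG : ¬ X ≤ G := by
        intro hh
        rw [inf_eq_right.mpr hh] at hGX
        exact point_ne_bot hX hGX
      refine ⟨G ⊔ X, by rw [finrank_sup_point G X hX hXG, hFk G hG], fun P hP => ?_⟩
      obtain ⟨hP1', -⟩ := hhigh P hP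
      simp only [pts, Finset.mem_filter, Finset.mem_univ, true_and]
      refine ⟨hP1', ?_⟩
      by_cases hPX : P = X
      · rw [hPX]
        exact le_sup_right
      obtain ⟨L, hL, hLt, hPL⟩ : ∃ L : Submodule K V, finrank K L = 2 ∧ Transv F L ∧ P ≤ L := by
        by_cases hPT : P ≤ T
        · exact ⟨T, hTd2, h.hTt, hPT⟩
        · exact htr P hP hPT hPX
      refine hPL.trans ?_
      obtain ⟨Q, hQ, hQl⟩ := exists_pt (G ⊓ L) (hLt G hG)
      have hQX : ¬ Q ≤ X := fun hh => hXG (point_eq hQ hX hh ▸ hQl.trans inf_le_left)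
      have h1 : finrank K (X ⊔ Q : Submodule K V) = 2 := by
        rw [finrank_sup_point X Q hQ hQX, hX]
      have h2 : X ⊔ Q = L := eq_of_le_of_finrank_eq
        (sup_le (hXL L ⟨hL, Or.inl hLt⟩) (hQl.trans inf_le_right)) (by omega)
      rw [← h2]
      exact sup_le le_sup_right ((hQl.trans inf_le_left).trans le_sup_left)
    · refine ⟨T ⊔ X, ?_, fun P hP => ?_⟩
      · have := Submodule.finrank_add_le_finrank_add_finrank T X
        omega
      · obtain ⟨hP1', hPd⟩ := hhigh P hP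
        simp only [pts, Finset.mem_filter, Finset.mem_univ, true_and]
        refine ⟨hP1', ?_⟩
        by_contra hPW
        have hPT : ¬ P ≤ T := fun hh => hPW (hh.trans le_sup_left)
        have hPX : P ≠ X := by
          intro hh
          exact hPW (by rw [hh]; exact le_sup_right)
        obtain ⟨L, hL, hLt, -⟩ := htr P hP hPT hPX
        exact h.hmin L (by omega) hLt
  · by_cases hex : ∃ L1 : Submodule K V, Pop k τ F L1
    · obtain ⟨L1, hL1⟩ := hex
      obtain ⟨U, hU, hUL⟩ := lines (fun L => Pop k τ F L) (fun L hh => hh.1) hpop2 L1 hL1 hstar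
      refine ⟨T ⊔ U, ?_, fun P hP => ?_⟩
      · have := Submodule.finrank_add_le_finrank_add_finrank T U
        omega
      · obtain ⟨hP1', hPd⟩ := hhigh P hP
        simp only [pts, Finset.mem_filter, Finset.mem_univ, true_and]
        refine ⟨hP1', ?_⟩
        by_contra hPW
        have hPT : ¬ P ≤ T := fun hh => hPW (hh.trans le_sup_left)
        obtain ⟨L, hL, hPL⟩ : ∃ L : Submodule K V, Pop k τ F L ∧ P ≤ L := by
          rcases hkey P hP1' hPT hPd with ⟨Q, hQ, hQt⟩ | ⟨Q, hQ, Q', hQ', hne, hp, hp'⟩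
          · exact ⟨P ⊔ Q, ⟨line_dim P Q T hP1' hPT (hptm Q T hQ).1 (hptm Q T hQ).2, Or.inl hQt⟩,
              le_sup_left⟩
          · exact ⟨P ⊔ Q, hp, le_sup_left⟩
        exact hPW ((hPL.trans (hUL L hL)).trans le_sup_right)
    · exfalso
      obtain ⟨X, hX, -⟩ := exists_pt T (by
        intro h0
        rw [h0, finrank_bot] at hTd
        omega)
      exact hstar ⟨X, hX, fun L hL => absurd ⟨L, hL⟩ hex⟩

end Run7.h774.HP
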